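import Pool.Agent.helper77.PV.SpecA

/-!
# Project pv (MP_376aaf_an), row K0P: homotopic idempotents have the same class
-/

set_option autoImplicit false

open scoped Matrix Topology
open Filter

namespace Pool.Agent.PV

open Pool.Agent.CZ

theorem K0P_aux (hPTH : PTH_stmt) (A : Type) [NormedRing A] [NormedAlgebra ℂ A] [CompleteSpace A]
    (ι : Type) [Fintype ι] [DecidableEq ι] (E : C(unitInterval, Matrix ι ι A))
    (h : ∀ t, E t * E t = E t) :
    ∃ w w' : Matrix ι ι A, w' * w = 1 ∧ w * w' = 1 ∧ E 1 * w = w * E 0 := by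
  let i1 : NormedRing (Matrix ι ι A) := Matrix.linftyOpNormedRing
  let i2 : NormedAlgebra ℂ (Matrix ι ι A) := Matrix.linftyOpNormedAlgebra
  have i3 : @CompleteSpace (Matrix ι ι A)
      (i1.toMetricSpace.toPseudoMetricSpace.toUniformSpace) :=
    (inferInstance : CompleteSpace (ι → ι → A))
  obtain ⟨W, W', -, hW⟩ := @hPTH (Matrix ι ι A) i1 i2 i3 E h
  exact ⟨W 1, W' 1, (hW 1).1, (hW 1).2.1, (hW 1).2.2⟩

theorem K0P (hK0E : K0E_stmt) (hPTH : PTH_stmt) : K0P_stmt := by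
  intro A _ _ _ ι _ _ E h
  obtain ⟨w, w', h1, h2, h3⟩ := K0P_aux hPTH A ι E h
  refine hK0E A ι ι (E 0) (E 1) (h 0) (h 1) (E 0 * w') (w * E 0) ?_ ?_
  · calc E 0 * w' * (w * E 0) = E 0 * (w' * w) * E 0 := by simp only [mul_assoc]
      _ = E 0 := by rw [h1, mul_one, h 0]
  · calc w * E 0 * (E 0 * w') = w * (E 0 * E 0) * w' := by simp only [mul_assoc]
      _ = w * E 0 * w' := by rw [h 0]
      _ = E 1 := by rw [← h3, mul_assoc, h2, mul_one]

end Pool.Agent.PV
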