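import Pool.Agent.helper53.PV.SpecD

/-!
# Project pv (MP_376aaf_an), row LEX: extension by density
-/

set_option autoImplicit false

namespace Pool.Agent.PV

open Pool.Agent.CZ

theorem LEX : LEX_stmt := by
  intro V A B _ _ _ _ _ _ _ S T hS hT
  exact ⟨T.extendOfNorm S, fun x =>
    LinearMap.extendOfNorm_eq hS ⟨1, fun y => by rw [one_mul]; exact hT y⟩ x⟩

end Pool.Agent.PV
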