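import Pool.Agent.helper77.PV.SpecC

/-!
# Project pv (MP_376aaf_an), row T2: exactness at `K₁(B)`
-/

set_option autoImplicit false

open scoped Matrix Topology
open Filter

namespace Pool.Agent.PV

open Pool.Agent.CZ

theorem T2 (hT1 : T1_stmt) (hZLP : ZLP_stmt) (hHOE : HOE_stmt) (hHON : HON_stmt)
    (hHOF : HOF_stmt) (hHOG : HOG_stmt) (hFUN : FUN_stmt) : T2_stmt := by
  intro B A _ _ _ _ _ _ al io u c hi ha hZ y hy
  have hal : Continuous (al : B →ₐ[ℂ] B) := ha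
  have hio : Continuous io := hi
  have hal' : Continuous (al.symm : B →ₐ[ℂ] B) := by
    have h1 : ∀ b : B, ‖(al.symm : B →ₐ[ℂ] B) b‖ = ‖b‖ := by
      intro b
      have h2 := hZ.isoB (al.symm b)
      rw [al.apply_symm_apply] at h2
      exact h2.symm
    exact AddMonoidHomClass.continuous_of_bound (al.symm : B →ₐ[ℂ] B) 1 fun b => by
      rw [one_mul, h1]
  obtain ⟨cc, hcc, -⟩ := hZLP B A al io u c hal hal' hio hZ
  obtain ⟨deB, hdeB⟩ := hHOE B
  obtain ⟨deA, hdeA⟩ := hHOE A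
  obtain ⟨x, hx0, hxy⟩ := hHOG B deB hdeB y
  have h1 : k0map (el A).toRingHom (k0map (cmpC UnitAddCircle io hio).toRingHom x) = 0 := by
    rw [← hFUN.2.1]
    have h2 : (el A).toRingHom.comp (cmpC UnitAddCircle io hio).toRingHom =
        io.toRingHom.comp (el B).toRingHom := rfl
    rw [h2, hFUN.2.1, hx0, map_zero]
  have h3 : deA (k0map (cmpC UnitAddCircle io hio).toRingHom x) = 0 := by
    rw [← hHON.1 B A io hio hi deB deA hdeB hdeA x, hxy, hy]
  have h4 := hHOF A deA hdeA _ h1 h3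
  obtain ⟨w, hw⟩ := hT1 _ _ _ _ _ _ hcc x h4
  refine ⟨deB w, ?_⟩
  rw [← hxy, hw, map_sub]
  congr 1
  exact (hHON.1 B B (al : B →ₐ[ℂ] B) hal ha deB deB hdeB hdeB w).symm

end Pool.Agent.PV
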