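import Pool.Agent.helper77.PV.SpecB

/-!
# Project pv (MP_376aaf_an), row ZC: coefficients of a Z-pair
-/

set_option autoImplicit false

open scoped Matrix Topology
open Filter

namespace Pool.Agent.PV

open Pool.Agent.CZ

section

variable {B A : Type} [NormedRing B] [NormedAlgebra ℂ B] [NormedRing A] [NormedAlgebra ℂ A]
  {al : B ≃ₐ[ℂ] B} {io : B →ₐ[ℂ] A} {u : Aˣ} {c : ℤ → A →ₗ[ℂ] B}

theorem ZC_cov (h : ZPair al io u c) (k : ℤ) :
    ∀ b : B, ((u ^ k : Aˣ) : A) * io b = io ((al ^ k) b) * ((u ^ k : Aˣ) : A) := by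
  have hinv : ∀ b : B, ((u⁻¹ : Aˣ) : A) * io b = io ((al⁻¹) b) * ((u⁻¹ : Aˣ) : A) := by
    intro b
    have h1 := h.cov ((al⁻¹) b)
    have h2 : al ((al⁻¹) b) = b := al.apply_symm_apply b
    rw [h2] at h1
    calc ((u⁻¹ : Aˣ) : A) * io b = ((u⁻¹ : Aˣ) : A) * (io b * (u : A)) * ((u⁻¹ : Aˣ) : A) := by
          rw [mul_assoc, mul_assoc, Units.mul_inv, mul_one]
      _ = ((u⁻¹ : Aˣ) : A) * ((u : A) * io ((al⁻¹) b)) * ((u⁻¹ : Aˣ) : A) := by rw [h1]
      _ = io ((al⁻¹) b) * ((u⁻¹ : Aˣ) : A) := by rw [← mul_assoc, Units.inv_mul, one_mul]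
  induction k with
  | zero =>
    intro b
    rw [zpow_zero, zpow_zero, Units.val_one, one_mul, mul_one]
    rfl
  | succ k ih =>
    intro b
    rw [zpow_add_one, zpow_add_one, Units.val_mul, mul_assoc, h.cov, ← mul_assoc, ih, mul_assoc]
    rfl
  | pred k ih =>
    intro b
    rw [zpow_sub_one, zpow_sub_one, Units.val_mul, mul_assoc, hinv, ← mul_assoc, ih, mul_assoc]
    rfl

theorem ZC_iso (h : ZPair al io u c) (k : ℤ) : ∀ b : B, ‖(al ^ k) b‖ = ‖b‖ := by
  have hinv : ∀ b : B, ‖(al⁻¹) b‖ = ‖b‖ := by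
    intro b
    have h1 := h.isoB ((al⁻¹) b)
    have h2 : al ((al⁻¹) b) = b := al.apply_symm_apply b
    rw [h2] at h1
    exact h1.symm
  induction k with
  | zero =>
    intro b
    rw [zpow_zero]
    rfl
  | succ k ih =>
    intro b
    rw [zpow_add_one]
    show ‖(al ^ (k : ℤ)) (al b)‖ = ‖b‖
    rw [ih, h.isoB]
  | pred k ih =>
    intro b
    rw [zpow_sub_one]
    show ‖(al ^ (-(k : ℤ))) ((al⁻¹) b)‖ = ‖b‖
    rw [ih, hinv]

theorem ZC_cont (h : ZPair al io u c) (m : ℤ) : Continuous (c m) :=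
  ((c m).mkContinuous 1 fun a => by rw [one_mul]; exact h.cnorm m a).continuous

theorem ZC_alcont (h : ZPair al io u c) (k : ℤ) : Continuous ((al ^ k : B ≃ₐ[ℂ] B) : B → B) :=
  ((al ^ k : B ≃ₐ[ℂ] B).toLinearMap.mkContinuous 1 fun b => by
    rw [one_mul]
    exact (ZC_iso h k b).le).continuous

/-- continuous linear maps which agree at the monomials agree -/
theorem ZC_ext (h : ZPair al io u c) (f g : A →ₗ[ℂ] B) (hf : Continuous f) (hg : Continuous g)
    (heq : ∀ (b : B) (n : ℤ), f (io b * ((u ^ n : Aˣ) : A)) = g (io b * ((u ^ n : Aˣ) : A)))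
    (a : A) : f a = g a := by
  have h1 : Set.EqOn f g {a : A | ∃ (b : B) (n : ℤ), a = io b * ((u ^ n : Aˣ) : A)} := by
    rintro a ⟨b, n, rfl⟩
    exact heq b n
  have h2 := LinearMap.eqOn_span h1
  exact congrFun (Continuous.ext_on h.dense hf hg h2) a

theorem ZC_fin (h : ZPair al io u c) (a : A)
    (ha : a ∈ Submodule.span ℂ {a : A | ∃ (b : B) (n : ℤ), a = io b * ((u ^ n : Aˣ) : A)}) :
    ∀ᶠ m in cofinite, c m a = 0 := by
  induction ha using Submodule.span_induction with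
  | mem x hx =>
    obtain ⟨b, n, rfl⟩ := hx
    have h1 : ({n} : Set ℤ)ᶜ ∈ cofinite := (Set.finite_singleton n).compl_mem_cofinite
    filter_upwards [h1] with m hm
    have h2 : ¬ m = n := hm
    rw [h.cval, if_neg h2]
  | zero => exact Eventually.of_forall fun m => map_zero _
  | add x y _ _ hx hy =>
    filter_upwards [hx, hy] with m h1 h2
    rw [map_add, h1, h2, add_zero]
  | smul z x _ hx =>
    filter_upwards [hx] with m h1
    rw [map_smul, h1, smul_zero]

end

theorem ZC : ZC_stmt := by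
  intro B A _ _ _ _ _ _ al io u c h
  have hval := h.cval
  refine ⟨ZC_cov h, ?_, ?_, ?_, ?_, ?_, ?_⟩
  · intro m b a
    refine ZC_ext h ((c m).comp (LinearMap.mulLeft ℂ (io b))) ((LinearMap.mulLeft ℂ b).comp (c m))
      ((ZC_cont h m).comp (continuous_const.mul continuous_id))
      (continuous_const.mul (ZC_cont h m)) ?_ a
    intro b' n
    show c m (io b * (io b' * ((u ^ n : Aˣ) : A))) = b * c m (io b' * ((u ^ n : Aˣ) : A))
    rw [← mul_assoc, ← map_mul, hval, hval]
    split_ifs <;> simp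
  · intro m b a
    refine ZC_ext h ((c m).comp (LinearMap.mulRight ℂ (io b)))
      ((LinearMap.mulRight ℂ ((al ^ m) b)).comp (c m))
      ((ZC_cont h m).comp (continuous_id.mul continuous_const))
      ((ZC_cont h m).mul continuous_const) ?_ a
    intro b' n
    show c m (io b' * ((u ^ n : Aˣ) : A) * io b) = c m (io b' * ((u ^ n : Aˣ) : A)) * (al ^ m) b
    rw [mul_assoc, ZC_cov h, ← mul_assoc, ← map_mul, hval, hval]
    split_ifs with h1
    · rw [h1]
    · rw [zero_mul]
  · intro m k a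
    refine ZC_ext h ((c m).comp (LinearMap.mulRight ℂ ((u ^ k : Aˣ) : A))) (c (m - k))
      ((ZC_cont h m).comp (continuous_id.mul continuous_const)) (ZC_cont h _) ?_ a
    intro b' n
    show c m (io b' * ((u ^ n : Aˣ) : A) * ((u ^ k : Aˣ) : A)) =
      c (m - k) (io b' * ((u ^ n : Aˣ) : A))
    rw [mul_assoc, ← Units.val_mul, ← zpow_add, hval, hval]
    have h1 : m = n + k ↔ m - k = n := by omega
    simp only [h1]
  · intro m k a
    refine ZC_ext h ((c m).comp (LinearMap.mulLeft ℂ ((u ^ k : Aˣ) : A)))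
      ((al ^ k : B ≃ₐ[ℂ] B).toLinearMap.comp (c (m - k)))
      ((ZC_cont h m).comp (continuous_const.mul continuous_id))
      ((ZC_alcont h k).comp (ZC_cont h _)) ?_ a
    intro b' n
    show c m (((u ^ k : Aˣ) : A) * (io b' * ((u ^ n : Aˣ) : A))) =
      (al ^ k) (c (m - k) (io b' * ((u ^ n : Aˣ) : A)))
    rw [← mul_assoc, ZC_cov h, mul_assoc, ← Units.val_mul, ← zpow_add, hval, hval]
    have h1 : m = k + n ↔ m - k = n := by omega
    simp only [h1]
    split_ifs
    · rfl
    · rw [map_zero]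
  · intro b
    have h1 := hval 0 0 b
    rw [zpow_zero, Units.val_one, mul_one, if_pos rfl] at h1
    exact h1
  · intro a
    rw [Metric.tendsto_nhds]
    intro ε hε
    obtain ⟨a', ha', hd⟩ := Metric.dense_iff.1 h.dense a ε hε
    have hfin := ZC_fin h a' hd
    filter_upwards [hfin] with m hm
    rw [dist_zero_right]
    have h1 : c m a = c m (a - a') := by rw [map_sub, hm, sub_zero]
    rw [h1]
    refine (h.cnorm m _).trans_lt ?_
    rw [← dist_eq_norm, dist_comm]
    exact ha'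

end Pool.Agent.PV
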